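import Pool.Agent.Helper53.UV.Par
import Pool.Agent.Helper56.BR.LSP

/-!
# PROJECT UR2 (MP_c578c8_lc): packet TLS, the tables are computed in linear space
-/

namespace Pool.Agent.Helper36.UV

open Pool.Agent.Helper65.LinSpace Pool.Agent.Helper78.Mpc
open Pool.Agent.Helper65.BR (Mach BM prm bT lT)
open Pool.Agent.Helper65.RT (CT ls_CT)
open Pool.Agent.Helper56.BR (two_pow_CT bT_le sil_lt nxN_lt ifz_lt)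
open Pool.Agent.Helper53.UR (kd tb1 dv pv)
open Pool.Agent.Helper53.UV

/-- The bounds. -/
theorem s_eq (z : Qn) : (Qn.m z).s = bT (Qn.n z) (Qn.T z) 0 + 1 := rfl

theorem a_eq (z : Qn) : (Qn.m z).a = bT (Qn.n z) (Qn.T z) 1 + 1 := rfl

theorem g_eq (z : Qn) : (Qn.m z).g = bT (Qn.n z) (Qn.T z) 3 + 1 := rfl

theorem hN (z : Qn) (q v : ℕ) : (Qn.m z).N q v < 2 ^ (Qn.m z).s := by
  show (prm (z.1 / 2) z.2.1 z.2.2.1 (Qn.T z) (Qn.p z)).sil _ _ < _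
  refine sil_lt (prm (z.1 / 2) z.2.1 z.2.2.1 (Qn.T z) (Qn.p z)) ?_ _
  unfold nxV
  exact ifz_lt (nxN_lt _ _ _) (ifz_lt (nxN_lt _ _ _) (capN_lt _ _))

theorem hW (z : Qn) (q v x c : ℕ) : (Qn.m z).W q v x c < 2 ^ (Qn.m z).a := capN_lt _ _

theorem ls_C : LS (fun z : Qn => CT z.2.1) := by
  have h : LS (fun z : Qn => z.2.1) := by fun_prop
  exact ls_CT h

theorem hs (z : Qn) : 2 ^ (Qn.m z).s ≤ CT z.2.1 := by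
  have h := bT_le (Qn.n z) (Qn.T z) 0
  have h2 : (Qn.m z).s = bT (Qn.n z) (Qn.T z) 0 + 1 := rfl
  refine two_pow_CT ?_
  show (Qn.m z).s ≤ 100 * (Qn.n z + 1)
  omega

theorem ha (z : Qn) : 2 ^ (Qn.m z).a ≤ CT z.2.1 := by
  have h := bT_le (Qn.n z) (Qn.T z) 1
  have h2 : (Qn.m z).a = bT (Qn.n z) (Qn.T z) 1 + 1 := rfl
  refine two_pow_CT ?_
  show (Qn.m z).a ≤ 100 * (Qn.n z + 1)
  omega

theorem hg (z : Qn) : 2 ^ (Qn.m z).g ≤ CT z.2.1 := by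
  have h := bT_le (Qn.n z) (Qn.T z) 3
  have h2 : (Qn.m z).g = bT (Qn.n z) (Qn.T z) 3 + 1 := rfl
  refine two_pow_CT ?_
  show (Qn.m z).g ≤ 100 * (Qn.n z + 1)
  omega

section
variable (hM : LSMOK)
include hM

theorem ls_ps : LS (fun z : Qn => 2 ^ (Qn.m z).s) :=
  LS.pow_of_le (LS.const 2) hM.1 ls_C hs

theorem ls_pg : LS (fun z : Qn => 2 ^ (Qn.m z).g) :=
  LS.pow_of_le (LS.const 2) hM.2.2.1 ls_C hg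

theorem ls_vz : LS (fun x : Qn × ℕ × ℕ => vz (Qn.m x.1) x.2.1 x.2.2) := by
  unfold vz
  have h1 : LS (fun x : Qn × ℕ × ℕ => 2 ^ (Qn.m x.1).g) :=
    LS.comp (g := fun z : Qn => 2 ^ (Qn.m z).g) (ls_pg hM) (by fun_prop)
  have h2 : LS (fun x : Qn × ℕ × ℕ => 2 ^ (Qn.m x.1).s) :=
    LS.comp (g := fun z : Qn => 2 ^ (Qn.m z).s) (ls_ps hM) (by fun_prop)
  exact LS.dig h1 (LS.div (by fun_prop) h2) (by fun_prop)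

theorem ls_st : LS (fun x : Qn × ℕ × ℕ => st (Qn.m x.1) x.2.1 x.2.2) := by
  unfold st
  have h2 : LS (fun x : Qn × ℕ × ℕ => 2 ^ (Qn.m x.1).s) :=
    LS.comp (g := fun z : Qn => 2 ^ (Qn.m z).s) (ls_ps hM) (by fun_prop)
  have hC : LS (fun x : Qn × ℕ × ℕ => CT x.1.2.1) :=
    LS.comp (g := fun z : Qn => CT z.2.1) ls_C (by fun_prop)
  refine LS.nrec (G := fun x : Qn × ℕ × ℕ => x.2.1 % 2 ^ (Qn.m x.1).s) (N := fun x => x.2.2)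
    (C := fun x => x.2.1 + CT x.1.2.1)
    (K := fun x t q => (Qn.m x.1).N q (vz (Qn.m x.1) x.2.1 t)) (LS.mod (by fun_prop) h2)
    (by fun_prop) (LS.add (by fun_prop) hC) ?_ ?_
  · have h3 : LS (fun p : (Qn × ℕ × ℕ) × ℕ × ℕ => vz (Qn.m p.1.1) p.1.2.1 p.2.1) :=
      LS.comp (g := fun x : Qn × ℕ × ℕ => vz (Qn.m x.1) x.2.1 x.2.2)
        (f := fun p : (Qn × ℕ × ℕ) × ℕ × ℕ => (p.1.1, p.1.2.1, p.2.1)) (ls_vz hM) (by fun_prop)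
    exact LS.comp (g := fun z : Qn × ℕ × ℕ => (Qn.m z.1).N z.2.1 z.2.2)
      (f := fun p : (Qn × ℕ × ℕ) × ℕ × ℕ => (p.1.1, p.2.2, vz (Qn.m p.1.1) p.1.2.1 p.2.1))
      hM.2.2.2.2.2.1 (by fun_prop)
  · intro x i _
    cases i with
    | zero => exact (Nat.mod_le _ _).trans (Nat.le_add_right _ _)
    | succ i =>
      rw [nrec_succ]
      have h4 := hN x.1 (nrec (x.2.1 % 2 ^ (Qn.m x.1).s)
        (fun t q => (Qn.m x.1).N q (vz (Qn.m x.1) x.2.1 t)) i) (vz (Qn.m x.1) x.2.1 i)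
      have h5 := hs x.1
      exact (h4.le.trans h5).trans (Nat.le_add_left _ _)

theorem ls_ct : LS (fun x : Qn × ℕ × ℕ × ℕ × ℕ =>
    ct (Qn.m x.1) x.2.1 x.2.2.1 x.2.2.2.1 x.2.2.2.2) := by
  unfold ct
  have hC : LS (fun x : Qn × ℕ × ℕ × ℕ × ℕ => CT x.1.2.1) :=
    LS.comp (g := fun z : Qn => CT z.2.1) ls_C (by fun_prop)
  refine LS.nrec (G := fun x : Qn × ℕ × ℕ × ℕ × ℕ => x.2.2.2.1) (N := fun x => x.2.2.2.2)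
    (C := fun x => x.2.2.2.1 + CT x.1.2.1)
    (K := fun x t c => (Qn.m x.1).W (st (Qn.m x.1) x.2.1 t) (vz (Qn.m x.1) x.2.1 t) x.2.2.1 c)
    (by fun_prop) (by fun_prop) (LS.add (by fun_prop) hC) ?_ ?_
  · have h3 : LS (fun p : (Qn × ℕ × ℕ × ℕ × ℕ) × ℕ × ℕ => vz (Qn.m p.1.1) p.1.2.1 p.2.1) :=
      LS.comp (g := fun x : Qn × ℕ × ℕ => vz (Qn.m x.1) x.2.1 x.2.2)
        (f := fun p : (Qn × ℕ × ℕ × ℕ × ℕ) × ℕ × ℕ => (p.1.1, p.1.2.1, p.2.1)) (ls_vz hM)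
        (by fun_prop)
    have h4 : LS (fun p : (Qn × ℕ × ℕ × ℕ × ℕ) × ℕ × ℕ => st (Qn.m p.1.1) p.1.2.1 p.2.1) :=
      LS.comp (g := fun x : Qn × ℕ × ℕ => st (Qn.m x.1) x.2.1 x.2.2)
        (f := fun p : (Qn × ℕ × ℕ × ℕ × ℕ) × ℕ × ℕ => (p.1.1, p.1.2.1, p.2.1)) (ls_st hM)
        (by fun_prop)
    exact LS.comp
      (g := fun z : Qn × ℕ × ℕ × ℕ × ℕ => (Qn.m z.1).W z.2.1 z.2.2.1 z.2.2.2.1 z.2.2.2.2)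
      (f := fun p : (Qn × ℕ × ℕ × ℕ × ℕ) × ℕ × ℕ => (p.1.1, st (Qn.m p.1.1) p.1.2.1 p.2.1,
        vz (Qn.m p.1.1) p.1.2.1 p.2.1, p.1.2.2.1, p.2.2))
      hM.2.2.2.2.2.2.1 (by fun_prop)
  · intro x i _
    cases i with
    | zero => exact Nat.le_add_right _ _
    | succ i =>
      rw [nrec_succ]
      have h4 := hW x.1 (st (Qn.m x.1) x.2.1 i) (vz (Qn.m x.1) x.2.1 i) x.2.2.1
        (nrec x.2.2.2.1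
          (fun t c => (Qn.m x.1).W (st (Qn.m x.1) x.2.1 t) (vz (Qn.m x.1) x.2.1 t) x.2.2.1 c) i)
      have h5 := ha x.1
      exact (h4.le.trans h5).trans (Nat.le_add_left _ _)

end

theorem ls_kd : LS (fun x : ℕ × ℕ × ℕ => kd x.1 x.2.1 x.2.2) := by
  unfold kd
  have h1 : LS (fun x : ℕ × ℕ × ℕ => x.2.2 / 2 ^ (x.2.1 - 1)) :=
    LS.divPow (LS.const 2) (by fun_prop) (by fun_prop)
  have h2 : LS (fun x : ℕ × ℕ × ℕ => x.2.2 / 2 ^ (x.2.1 - 2)) :=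
    LS.divPow (LS.const 2) (by fun_prop) (by fun_prop)
  fun_prop

section
variable (hP : LSParOK) (hM : LSMOK) (hQ : ParOK)
include hP

theorem ls_eV : LS (fun z : Qn => eV (Qn.n z) (Qn.T z)) := hP.2.2.2.2.2.1

theorem ls_dv : LS (fun x : Qn × ℕ => dv (eV (Qn.n x.1) (Qn.T x.1)) x.2) := by
  unfold dv
  have h1 : LS (fun x : Qn × ℕ => eV (Qn.n x.1) (Qn.T x.1)) :=
    LS.comp (g := fun z : Qn => eV (Qn.n z) (Qn.T z)) (ls_eV hP) (by fun_prop)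
  have h2 : LS (fun x : Qn × ℕ => Nat.log 2 x.2) := LS.log2 (by fun_prop)
  fun_prop

theorem ls_pv : LS (fun x : Qn × ℕ => pv (eV (Qn.n x.1) (Qn.T x.1)) x.2) := by
  unfold pv
  exact LS.modPow (LS.const 2) (by fun_prop) (ls_dv hP)

include hQ

theorem ls_pe : LS (fun z : Qn => 2 ^ eV (Qn.n z) (Qn.T z)) := by
  have h1 : LS (fun z : Qn => Qn.n z) := hP.2.1
  refine LS.pow_of_le (C := fun z : Qn => 3 * (Qn.n z + 1)) (LS.const 2) (ls_eV hP)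
    (by fun_prop) fun z => ?_
  have h2 := (hQ.1 (Qn.n z) (Qn.T z)).2.2.2.2
  have h3 : 1 * 2 ^ eV (Qn.n z) (Qn.T z) ≤
      (bT (Qn.n z) (Qn.T z) 3 + 1) * 2 ^ eV (Qn.n z) (Qn.T z) :=
    Nat.mul_le_mul_right _ (by omega)
  omega

include hM

/-- The power in the last table. -/
theorem ls_pow : LS (fun x : Qn × ℕ =>
    2 ^ ((Qn.m x.1).s + (Qn.m x.1).g * (x.2 % 2 ^ eV (Qn.n x.1) (Qn.T x.1)))) := by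
  have h1 : LS (fun x : Qn × ℕ => 2 ^ eV (Qn.n x.1) (Qn.T x.1)) :=
    LS.comp (g := fun z : Qn => 2 ^ eV (Qn.n z) (Qn.T z)) (ls_pe hP hQ) (by fun_prop)
  have h2 : LS (fun x : Qn × ℕ => (Qn.m x.1).s) :=
    LS.comp (g := fun z : Qn => (Qn.m z).s) hM.1 (by fun_prop)
  have h3 : LS (fun x : Qn × ℕ => (Qn.m x.1).g) :=
    LS.comp (g := fun z : Qn => (Qn.m z).g) hM.2.2.1 (by fun_prop)
  have hC : LS (fun x : Qn × ℕ => CT x.1.2.1) :=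
    LS.comp (g := fun z : Qn => CT z.2.1) ls_C (by fun_prop)
  refine LS.pow_of_le (C := fun x : Qn × ℕ => CT x.1.2.1) (LS.const 2)
    (LS.add h2 (LS.mul h3 (LS.mod (by fun_prop) h1))) hC fun x => two_pow_CT ?_
  have h4 := (hQ.1 (Qn.n x.1) (Qn.T x.1)).2.2.2.2
  have h5 : x.2 % 2 ^ eV (Qn.n x.1) (Qn.T x.1) ≤ 2 ^ eV (Qn.n x.1) (Qn.T x.1) :=
    (Nat.mod_lt _ (by positivity)).le
  have h6 : (Qn.m x.1).g * (x.2 % 2 ^ eV (Qn.n x.1) (Qn.T x.1)) ≤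
      (bT (Qn.n x.1) (Qn.T x.1) 3 + 1) * 2 ^ eV (Qn.n x.1) (Qn.T x.1) :=
    Nat.mul_le_mul le_rfl h5
  have h7 : (Qn.m x.1).s = bT (Qn.n x.1) (Qn.T x.1) 0 + 1 := rfl
  show (Qn.m x.1).s + (Qn.m x.1).g * (x.2 % 2 ^ eV (Qn.n x.1) (Qn.T x.1)) ≤
    100 * (Qn.n x.1 + 1)
  calc (Qn.m x.1).s + (Qn.m x.1).g * (x.2 % 2 ^ eV (Qn.n x.1) (Qn.T x.1))
      ≤ (bT (Qn.n x.1) (Qn.T x.1) 0 + 1) +
        (bT (Qn.n x.1) (Qn.T x.1) 3 + 1) * 2 ^ eV (Qn.n x.1) (Qn.T x.1) :=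
        Nat.add_le_add h7.le h6
    _ ≤ 3 * (Qn.n x.1 + 1) := h4
    _ ≤ 100 * (Qn.n x.1 + 1) := Nat.mul_le_mul_right _ (by omega)

theorem tls : LS (fun x : Qn × ℕ × ℕ × ℕ × ℕ × ℕ =>
    Qn.t x.1 x.2.1 x.2.2.1 x.2.2.2.1 x.2.2.2.2.1 x.2.2.2.2.2) := by
  -- the node
  have hd : LS (fun x : Qn × ℕ × ℕ × ℕ × ℕ × ℕ => dv (eV (Qn.n x.1) (Qn.T x.1)) x.2.2.1) :=
    LS.comp (g := fun x : Qn × ℕ => dv (eV (Qn.n x.1) (Qn.T x.1)) x.2)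
      (f := fun x : Qn × ℕ × ℕ × ℕ × ℕ × ℕ => (x.1, x.2.2.1)) (ls_dv hP) (by fun_prop)
  have hp : LS (fun x : Qn × ℕ × ℕ × ℕ × ℕ × ℕ => pv (eV (Qn.n x.1) (Qn.T x.1)) x.2.2.1) :=
    LS.comp (g := fun x : Qn × ℕ => pv (eV (Qn.n x.1) (Qn.T x.1)) x.2)
      (f := fun x : Qn × ℕ × ℕ × ℕ × ℕ × ℕ => (x.1, x.2.2.1)) (ls_pv hP) (by fun_prop)
  have he : LS (fun x : Qn × ℕ × ℕ × ℕ × ℕ × ℕ => eV (Qn.n x.1) (Qn.T x.1)) :=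
    LS.comp (g := fun z : Qn => eV (Qn.n z) (Qn.T z)) (ls_eV hP) (by fun_prop)
  have hk : LS (fun x : Qn × ℕ × ℕ × ℕ × ℕ × ℕ =>
      kd (eV (Qn.n x.1) (Qn.T x.1)) (dv (eV (Qn.n x.1) (Qn.T x.1)) x.2.2.1)
        (pv (eV (Qn.n x.1) (Qn.T x.1)) x.2.2.1)) :=
    LS.comp (g := fun x : ℕ × ℕ × ℕ => kd x.1 x.2.1 x.2.2)
      (f := fun x : Qn × ℕ × ℕ × ℕ × ℕ × ℕ => (eV (Qn.n x.1) (Qn.T x.1),
        dv (eV (Qn.n x.1) (Qn.T x.1)) x.2.2.1, pv (eV (Qn.n x.1) (Qn.T x.1)) x.2.2.1))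
      ls_kd (by fun_prop)
  have hpe : LS (fun x : Qn × ℕ × ℕ × ℕ × ℕ × ℕ => 2 ^ eV (Qn.n x.1) (Qn.T x.1)) :=
    LS.comp (g := fun z : Qn => 2 ^ eV (Qn.n z) (Qn.T z)) (ls_pe hP hQ) (by fun_prop)
  -- the position in the part
  have ht : LS (fun x : Qn × ℕ × ℕ × ℕ × ℕ × ℕ =>
      pv (eV (Qn.n x.1) (Qn.T x.1)) x.2.2.1 % 2 ^ eV (Qn.n x.1) (Qn.T x.1)) := LS.mod hp hpe
  have hst : LS (fun x : Qn × ℕ × ℕ × ℕ × ℕ × ℕ =>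
      st (Qn.m x.1) x.2.2.2.1
        (pv (eV (Qn.n x.1) (Qn.T x.1)) x.2.2.1 % 2 ^ eV (Qn.n x.1) (Qn.T x.1))) :=
    LS.comp (g := fun x : Qn × ℕ × ℕ => st (Qn.m x.1) x.2.1 x.2.2)
      (f := fun x : Qn × ℕ × ℕ × ℕ × ℕ × ℕ => (x.1, x.2.2.2.1,
        pv (eV (Qn.n x.1) (Qn.T x.1)) x.2.2.1 % 2 ^ eV (Qn.n x.1) (Qn.T x.1)))
      (ls_st hM) (by fun_prop)
  have hA : LS (fun x : Qn × ℕ × ℕ × ℕ × ℕ × ℕ => (Qn.m x.1).A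
      (st (Qn.m x.1) x.2.2.2.1
        (pv (eV (Qn.n x.1) (Qn.T x.1)) x.2.2.1 % 2 ^ eV (Qn.n x.1) (Qn.T x.1)))) :=
    LS.comp (g := fun z : Qn × ℕ => (Qn.m z.1).A z.2)
      (f := fun x : Qn × ℕ × ℕ × ℕ × ℕ × ℕ => (x.1,
        st (Qn.m x.1) x.2.2.2.1
          (pv (eV (Qn.n x.1) (Qn.T x.1)) x.2.2.1 % 2 ^ eV (Qn.n x.1) (Qn.T x.1))))
      hM.2.2.2.1 (by fun_prop)
  have hq0 : LS (fun x : Qn × ℕ × ℕ × ℕ × ℕ × ℕ => (Qn.m x.1).q0) :=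
    LS.comp (g := fun z : Qn => (Qn.m z).q0) hM.2.2.2.2.2.2.2.1 (by fun_prop)
  have hM0 : LS (fun x : Qn × ℕ × ℕ × ℕ × ℕ × ℕ => (Qn.m x.1).M0 (x.2.2.2.1 - 1)) :=
    LS.comp (g := fun z : Qn × ℕ => (Qn.m z.1).M0 z.2)
      (f := fun x : Qn × ℕ × ℕ × ℕ × ℕ × ℕ => (x.1, x.2.2.2.1 - 1))
      hM.2.2.2.2.2.2.2.2 (by fun_prop)
  have hsz : LS (fun x : Qn × ℕ × ℕ × ℕ × ℕ × ℕ =>
      st (Qn.m x.1) x.2.2.2.2.2 (2 ^ eV (Qn.n x.1) (Qn.T x.1))) :=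
    LS.comp (g := fun x : Qn × ℕ × ℕ => st (Qn.m x.1) x.2.1 x.2.2)
      (f := fun x : Qn × ℕ × ℕ × ℕ × ℕ × ℕ => (x.1, x.2.2.2.2.2,
        2 ^ eV (Qn.n x.1) (Qn.T x.1)))
      (ls_st hM) (by fun_prop)
  have hcz : LS (fun x : Qn × ℕ × ℕ × ℕ × ℕ × ℕ =>
      ct (Qn.m x.1) x.2.2.2.2.2 (x.2.2.2.1 - 1) x.2.2.2.2.1
        (2 ^ eV (Qn.n x.1) (Qn.T x.1))) :=
    LS.comp
      (g := fun x : Qn × ℕ × ℕ × ℕ × ℕ => ct (Qn.m x.1) x.2.1 x.2.2.1 x.2.2.2.1 x.2.2.2.2)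
      (f := fun x : Qn × ℕ × ℕ × ℕ × ℕ × ℕ => (x.1, x.2.2.2.2.2, x.2.2.2.1 - 1, x.2.2.2.2.1,
        2 ^ eV (Qn.n x.1) (Qn.T x.1))) (ls_ct hM) (by fun_prop)
  have hcx : LS (fun x : Qn × ℕ × ℕ × ℕ × ℕ × ℕ =>
      ct (Qn.m x.1) x.2.2.2.1 ((Qn.m x.1).A
        (st (Qn.m x.1) x.2.2.2.1
          (pv (eV (Qn.n x.1) (Qn.T x.1)) x.2.2.1 % 2 ^ eV (Qn.n x.1) (Qn.T x.1))))
        x.2.2.2.2.1
        (pv (eV (Qn.n x.1) (Qn.T x.1)) x.2.2.1 % 2 ^ eV (Qn.n x.1) (Qn.T x.1))) :=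
    LS.comp
      (g := fun x : Qn × ℕ × ℕ × ℕ × ℕ => ct (Qn.m x.1) x.2.1 x.2.2.1 x.2.2.2.1 x.2.2.2.2)
      (f := fun x : Qn × ℕ × ℕ × ℕ × ℕ × ℕ => (x.1, x.2.2.2.1, (Qn.m x.1).A
        (st (Qn.m x.1) x.2.2.2.1
          (pv (eV (Qn.n x.1) (Qn.T x.1)) x.2.2.1 % 2 ^ eV (Qn.n x.1) (Qn.T x.1))),
        x.2.2.2.2.1,
        pv (eV (Qn.n x.1) (Qn.T x.1)) x.2.2.1 % 2 ^ eV (Qn.n x.1) (Qn.T x.1)))
      (ls_ct hM) (by fun_prop)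
  have hR : LS (fun x : Qn × ℕ × ℕ × ℕ × ℕ × ℕ => (Qn.m x.1).R
      (st (Qn.m x.1) x.2.2.2.1
        (pv (eV (Qn.n x.1) (Qn.T x.1)) x.2.2.1 % 2 ^ eV (Qn.n x.1) (Qn.T x.1)))
      (ct (Qn.m x.1) x.2.2.2.1 ((Qn.m x.1).A
        (st (Qn.m x.1) x.2.2.2.1
          (pv (eV (Qn.n x.1) (Qn.T x.1)) x.2.2.1 % 2 ^ eV (Qn.n x.1) (Qn.T x.1))))
        x.2.2.2.2.1
        (pv (eV (Qn.n x.1) (Qn.T x.1)) x.2.2.1 % 2 ^ eV (Qn.n x.1) (Qn.T x.1)))) :=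
    LS.comp (g := fun z : Qn × ℕ × ℕ => (Qn.m z.1).R z.2.1 z.2.2)
      (f := fun x : Qn × ℕ × ℕ × ℕ × ℕ × ℕ => (x.1,
        st (Qn.m x.1) x.2.2.2.1
          (pv (eV (Qn.n x.1) (Qn.T x.1)) x.2.2.1 % 2 ^ eV (Qn.n x.1) (Qn.T x.1)),
        ct (Qn.m x.1) x.2.2.2.1 ((Qn.m x.1).A
          (st (Qn.m x.1) x.2.2.2.1
            (pv (eV (Qn.n x.1) (Qn.T x.1)) x.2.2.1 % 2 ^ eV (Qn.n x.1) (Qn.T x.1))))
          x.2.2.2.2.1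
          (pv (eV (Qn.n x.1) (Qn.T x.1)) x.2.2.1 % 2 ^ eV (Qn.n x.1) (Qn.T x.1))))
      hM.2.2.2.2.1 (by fun_prop)
  have hpw : LS (fun x : Qn × ℕ × ℕ × ℕ × ℕ × ℕ => 2 ^ ((Qn.m x.1).s + (Qn.m x.1).g *
      (pv (eV (Qn.n x.1) (Qn.T x.1)) x.2.2.1 % 2 ^ eV (Qn.n x.1) (Qn.T x.1)))) :=
    LS.comp (g := fun x : Qn × ℕ =>
        2 ^ ((Qn.m x.1).s + (Qn.m x.1).g * (x.2 % 2 ^ eV (Qn.n x.1) (Qn.T x.1))))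
      (f := fun x : Qn × ℕ × ℕ × ℕ × ℕ × ℕ => (x.1, pv (eV (Qn.n x.1) (Qn.T x.1)) x.2.2.1))
      (ls_pow hP hM hQ) (by fun_prop)
  have hNN : LS (fun x : Qn × ℕ × ℕ × ℕ × ℕ × ℕ => Qn.N x.1) :=
    LS.comp (g := fun z : Qn => Qn.N z) hP.2.2.2.2.2.2.2.2.1 (by fun_prop)
  have hb : LS (fun x : Qn × ℕ × ℕ × ℕ × ℕ × ℕ => Qn.b x.1) :=
    LS.comp (g := fun z : Qn => Qn.b z) hP.2.2.2.2.2.2.2.2.2.2.1 (by fun_prop)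
  have hl : LS (fun x : Qn × ℕ × ℕ × ℕ × ℕ × ℕ => Nat.log 2 x.2.2.1) := LS.log2 (by fun_prop)
  unfold Qn.t tb
  refine LS.modPow (LS.const 2) ?_ hb
  unfold tb0 tb1 tb2
  have hx : LS (fun x : Qn × ℕ × ℕ × ℕ × ℕ × ℕ => x.2.2.2.1) := by fun_prop
  have hy : LS (fun x : Qn × ℕ × ℕ × ℕ × ℕ × ℕ => x.2.2.2.2.1) := by fun_prop
  have hz : LS (fun x : Qn × ℕ × ℕ × ℕ × ℕ × ℕ => x.2.2.2.2.2) := by fun_prop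
  have hm : LS (fun x : Qn × ℕ × ℕ × ℕ × ℕ × ℕ => x.2.1) := by fun_prop
  have h0 : LS (fun _ : Qn × ℕ × ℕ × ℕ × ℕ × ℕ => (0 : ℕ)) := LS.const 0
  have s1 := LS.sub hk (LS.const 1)
  have s2 := LS.sub hk (LS.const 2)
  have s3 := LS.sub hk (LS.const 3)
  refine LS.ifz hm ?_ (LS.ifz (LS.sub hm (LS.const 1)) ?_ ?_)
  · exact LS.ifz hk hx (LS.ifz s1 hx (LS.ifz s2 h0 (LS.ifz s3 hx (LS.succ hA))))
  · exact LS.ifz hk h0 (LS.ifz s1 h0 (LS.ifz s2 hy (LS.ifz s3 hy h0)))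
  · exact LS.ifz hk (LS.ifz (LS.sub hNN hl) (LS.ifz hx hq0 hM0) (LS.ifz hx hsz hcz))
      (LS.ifz s1 hy (LS.ifz s2 hz (LS.ifz s3 hz (LS.add hx (LS.mul hpw hR)))))

end

theorem gTLS : GoalTLS := fun hQ hP hM => tls hP hM hQ

end Pool.Agent.Helper36.UV
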